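import Pool.Agent.W840.OSI.Final

/-!
# Isotropy of sparse stacks (sanity check)
-/

set_option autoImplicit false

namespace Pool.Agent.W840.OSI

open Finset Matrix Pool.Agent.H999R2.KSat

/-- flip the sign at `(i0, t0)` -/
def oflp {n b ζ : ℕ} (i0 : Fin n) (t0 : Fin ζ) (ω : Outcome n b ζ) : Outcome n b ζ :=
  fun i t => if i = i0 ∧ t = t0 then (! (ω i t).1, (ω i t).2) else ω i t

theorem oflp_oflp {n b ζ : ℕ} (i0 : Fin n) (t0 : Fin ζ) (ω : Outcome n b ζ) :
    oflp i0 t0 (oflp i0 t0 ω) = ω := by
  funext i t
  unfold oflp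
  by_cases h : i = i0 ∧ t = t0 <;> simp [h]

def oflpE {n b ζ : ℕ} (i0 : Fin n) (t0 : Fin ζ) : Outcome n b ζ ≃ Outcome n b ζ where
  toFun := oflp i0 t0
  invFun := oflp i0 t0
  left_inv := oflp_oflp i0 t0
  right_inv := oflp_oflp i0 t0

theorem E_oflip_zero {n b ζ : ℕ} (i0 : Fin n) (t0 : Fin ζ) (h : Outcome n b ζ → ℝ)
    (hh : ∀ ω, h (oflp i0 t0 ω) = - h ω) : E h = 0 := by
  have h1 := E_equiv (oflpE i0 t0) h
  have h2 : E (fun ω => h (oflpE i0 t0 ω)) = - E h := by
    have : ∀ ω, h (oflpE i0 t0 ω) = (-1) * h ω := by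
      intro ω
      rw [neg_one_mul]
      exact hh ω
    rw [E_congr this, E_mul_left]
    ring
  linarith

theorem stack_flp_self {n b ζ : ℕ} (i0 : Fin n) (ω : Outcome n b ζ) (z : Fin ζ × Fin b) :
    sparseStack (oflp i0 z.1 ω) i0 z = - sparseStack ω i0 z := by
  unfold sparseStack oflp
  simp only [and_self, if_true]
  cases (ω i0 z.1).1 <;> split_ifs <;> simp_all <;> ring

theorem stack_flp_of_ne {n b ζ : ℕ} (i0 i : Fin n) (h : i ≠ i0) (ω : Outcome n b ζ)
    (z : Fin ζ × Fin b) : sparseStack (oflp i0 z.1 ω) i z = sparseStack ω i z := by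
  unfold sparseStack oflp
  simp only [h, false_and, if_false]

/-- **Isotropy**: the mean of `‖Ωᵀ x‖²` over all outcomes is `‖x‖²`. -/
theorem isotropy {n b ζ : ℕ} (hζ : 1 ≤ ζ) (hb : 1 ≤ b) (x : Fin n → ℝ) :
    (∑ ω : Outcome n b ζ, normSq ((sparseStack ω)ᵀ.mulVec x)) /
      (Fintype.card (Outcome n b ζ) : ℝ) = normSq x := by
  have hne : Nonempty (Fin b) := ⟨⟨0, hb⟩⟩
  have hζ' : (0 : ℝ) < ζ := by
    have : 0 < ζ := hζ
    exact_mod_cast this
  have hb' : (0 : ℝ) < b := by
    have : 0 < b := hb
    exact_mod_cast this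
  change E (fun ω : Outcome n b ζ => normSq ((sparseStack ω)ᵀ.mulVec x)) = normSq x
  unfold normSq
  rw [E_sum]
  have h1 : ∀ z : Fin ζ × Fin b, E (fun ω : Outcome n b ζ =>
      ((sparseStack ω)ᵀ.mulVec x) z ^ 2) = (∑ i, x i ^ 2) / (ζ * b) := by
    intro z
    have h2 : ∀ ω : Outcome n b ζ, ((sparseStack ω)ᵀ.mulVec x) z ^ 2 =
        ∑ i, ∑ i', (x i * x i') * (sparseStack ω i z * sparseStack ω i' z) := by
      intro ω
      unfold Matrix.mulVec dotProduct
      rw [sq, Finset.sum_mul_sum]
      refine Finset.sum_congr rfl fun i _ => Finset.sum_congr rfl fun i' _ => ?_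
      simp only [Matrix.transpose_apply]
      ring
    rw [E_congr h2, E_sum, Finset.sum_div]
    refine Finset.sum_congr rfl fun i _ => ?_
    rw [E_sum, Finset.sum_eq_single i]
    · have h3 : ∀ ω : Outcome n b ζ, x i * x i * (sparseStack ω i z * sparseStack ω i z) =
          (x i ^ 2 / ζ) * ind ((ω i z.1).2 = z.2) := by
        intro ω
        unfold sparseStack
        by_cases h : (ω i z.1).2 = z.2
        · rw [if_pos h, ind_true h]
          have h4 : Real.sqrt ζ * Real.sqrt ζ = ζ := Real.mul_self_sqrt hζ'.le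
          have h5 : Real.sqrt ζ ≠ 0 := (Real.sqrt_pos.2 hζ').ne'
          cases (ω i z.1).1
          · simp only [Bool.false_eq_true, if_false, mul_one]
            rw [div_mul_div_comm, h4]
            ring
          · simp only [if_true, mul_one]
            rw [div_mul_div_comm, h4]
            ring
        · rw [if_neg h, ind_false h]
          ring
      rw [E_congr h3, E_mul_left]
      have h6 : E (fun ω : Outcome n b ζ => ind ((ω i z.1).2 = z.2)) = 1 / b := by
        rw [E_update i]
        have h7 : ∀ F : Outcome n b ζ, E (fun y : Fin ζ → Bool × Fin b =>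
            ind ((Function.update F i y i z.1).2 = z.2)) = 1 / b := by
          intro F
          simp only [Function.update_self]
          rw [E_update z.1]
          have h8 : ∀ G : Fin ζ → Bool × Fin b, E (fun y : Bool × Fin b =>
              ind ((Function.update G z.1 y z.1).2 = z.2)) = 1 / b := by
            intro G
            simp only [Function.update_self]
            rw [E_prod (fun (_ : Bool) (p : Fin b) => ind (p = z.2)), E_const]
            unfold E
            rw [Fintype.card_fin, Finset.sum_eq_single z.2]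
            · rw [ind_true rfl]
            · intro y _ hy
              exact ind_false hy
            · intro h; exact absurd (mem_univ _) h
          rw [E_congr h8, E_const]
        rw [E_congr h7, E_const]
      rw [h6]
      field_simp
    · intro i' _ hne'
      rw [E_mul_left, E_oflip_zero i z.1, mul_zero]
      intro ω
      rw [stack_flp_self, stack_flp_of_ne i i' hne']
      ring
    · intro h
      exact absurd (mem_univ _) h
  rw [Finset.sum_congr rfl (fun z _ => h1 z), Finset.sum_const, Finset.card_univ,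
    Fintype.card_prod, Fintype.card_fin, Fintype.card_fin, nsmul_eq_mul]
  push_cast
  field_simp

end Pool.Agent.W840.OSI
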