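import Pool.Agent.H999R2.KSat.ES

/-!
# Sparse stacks: definitions

`E` (average over a finite type) and `ind` (indicator) are those of `H999R2.KSat.Defs`.
-/

set_option autoImplicit false

namespace Pool.Agent.W840.OSI

open Finset Matrix Pool.Agent.H999R2.KSat

/-- An outcome of the randomness: for every row `i` and every block `j` the sign of the nonzero
entry (`true` is `+`, `false` is `-`) and its position inside the block. -/
abbrev Outcome (n b ζ : ℕ) : Type := Fin n → Fin ζ → Bool × Fin b

/-- Probability of an event when all signs and all positions are independent and uniform, that is,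
the uniform law on the finite set of all outcomes. -/
noncomputable def prob {n b ζ : ℕ} (A : Set (Outcome n b ζ)) : ℝ :=
  (Nat.card A : ℝ) / (Nat.card (Outcome n b ζ) : ℝ)

/-- The SparseStack matrix with `k = b * ζ` columns; the columns are indexed by the pairs
(block, position in the block). Row `i` has in block `j` exactly one nonzero entry,
equal to plus or minus `1 / sqrt ζ`. -/
noncomputable def sparseStack {n b ζ : ℕ} (ω : Outcome n b ζ) :
    Matrix (Fin n) (Fin ζ × Fin b) ℝ :=
  fun i c => if (ω i c.1).2 = c.2 then (if (ω i c.1).1 then (1 : ℝ) else -1) / Real.sqrt ζ else 0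

/-- Squared Euclidean norm of a real vector. -/
noncomputable def normSq {ι : Type} [Fintype ι] (x : ι → ℝ) : ℝ := ∑ i, x i ^ 2

/-- The SparseStack is an oblivious subspace injection for dimension `r` with parameter `α` and
failure probability `δ`: for every `r`-dimensional subspace `V` of `ℝ^n`, with probability at least
`1 - δ`, `α ‖x‖² ≤ ‖Ωᵀ x‖²` for all `x ∈ V`. (The isotropy `E ‖Ωᵀ x‖² = ‖x‖²` holds for every
SparseStack, see `isotropy`, and is therefore not required here.) -/
def IsOSI (n b ζ r : ℕ) (α δ : ℝ) : Prop :=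
  ∀ V : Submodule ℝ (Fin n → ℝ), Module.finrank ℝ V = r →
    1 - δ ≤ prob {ω : Outcome n b ζ |
      ∀ x ∈ V, α * normSq x ≤ normSq ((sparseStack ω)ᵀ.mulVec x)}

/-- the sign as a real number -/
noncomputable def sg (β : Bool) : ℝ := if β then 1 else -1

theorem sg_sq (β : Bool) : sg β * sg β = 1 := by
  unfold sg; split_ifs <;> norm_num

theorem sg_not (β : Bool) : sg (!β) = - sg β := by
  unfold sg; cases β <;> simp

/-- the (unnormalised) coordinate `(t, p)` of `Ωᵀ x` -/
noncomputable def vec {r b ζ : ℕ} (F : Fin r → Fin ζ → Bool × Fin b) (x : Fin r → ℝ)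
    (t : Fin ζ) (p : Fin b) : ℝ :=
  ∑ c, x c * (if (F c t).2 = p then sg (F c t).1 else 0)

/-- the (unnormalised) squared norm of `Ωᵀ x` -/
noncomputable def QQ {r b ζ : ℕ} (F : Fin r → Fin ζ → Bool × Fin b) (x : Fin r → ℝ) : ℝ :=
  ∑ t, ∑ p, vec F x t p ^ 2

end Pool.Agent.W840.OSI
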