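import Pool.Agent.W840.OSI.Heavy

/-!
# Assembly
-/

set_option autoImplicit false

namespace Pool.Agent.W840.OSI

open Finset Matrix Pool.Agent.H999R2.KSat

/-- split signs and positions -/
def splitE (r b ζ : ℕ) : ((Fin r → Fin ζ → Fin b) × (Fin r → Fin ζ → Bool)) ≃
    (Fin r → Fin ζ → Bool × Fin b) where
  toFun z := mk z.2 z.1
  invFun F := (fun c t => (F c t).2, fun c t => (F c t).1)
  left_inv _ := rfl
  right_inv _ := rfl

theorem main_ineq {r b ζ : ℕ} (M : ℕ) (hM : 1 ≤ M) (hζ : 1 ≤ ζ) (hb : 1 ≤ b) (α : ℝ)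
    (hα : 0 < α) (q : ℝ) (hq : 0 < q) (h : ∀ x : Fin b, q ≤ PP r b M x) :
    E (fun F : Fin (r + 1) → Fin ζ → Bool × Fin b =>
      ind (∀ x : Fin (r + 1) → ℝ, α * ∑ c, x c ^ 2 ≤ QQ F x / ζ)) ≤
      (ζ : ℝ) / (M * α) + (1 + ζ * M) ^ 2 / (((r : ℝ) + 1) * q ^ (2 * ζ)) := by
  have hpos : 0 ≤ (ζ : ℝ) / (M * α) := by positivity
  rw [← E_equiv (splitE (r + 1) b ζ), E_prod (fun (g : Fin (r + 1) → Fin ζ → Fin b)
    (σ : Fin (r + 1) → Fin ζ → Bool) =>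
    ind (∀ x : Fin (r + 1) → ℝ, α * ∑ c, x c ^ 2 ≤ QQ (splitE (r + 1) b ζ (g, σ)) x / ζ))]
  have h1 : ∀ g : Fin (r + 1) → Fin ζ → Fin b,
      E (fun σ : Fin (r + 1) → Fin ζ → Bool =>
        ind (∀ x : Fin (r + 1) → ℝ, α * ∑ c, x c ^ 2 ≤ QQ (splitE (r + 1) b ζ (g, σ)) x / ζ)) ≤
      (ζ : ℝ) / (M * α) + ind (∀ i, ¬ HH M g i) := by
    intro g
    by_cases hg : ∀ i, ¬ HH M g i
    · rw [ind_true hg]
      have : E (fun σ : Fin (r + 1) → Fin ζ → Bool =>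
        ind (∀ x : Fin (r + 1) → ℝ, α * ∑ c, x c ^ 2 ≤ QQ (splitE (r + 1) b ζ (g, σ)) x / ζ)) ≤
        1 := E_le_of_nonneg zero_le_one fun _ => ind_le_one _
      linarith
    · rw [ind_false hg, add_zero]
      push Not at hg
      obtain ⟨i, hi⟩ := hg
      exact inj_le hζ α hα g i M hM hi
  refine (E_mono h1).trans ?_
  have : Nonempty (Fin b) := ⟨⟨0, hb⟩⟩
  rw [E_add, E_const]
  have h2 := no_heavy (ζ := ζ) M hb q hq.le h
  have h3 : (0 : ℝ) < (r : ℝ) + 1 := by positivity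
  have h4 : E (fun g : Fin (r + 1) → Fin ζ → Fin b => ind (∀ i, ¬ HH M g i)) ≤
      (1 + ζ * M) ^ 2 / (((r : ℝ) + 1) * q ^ (2 * ζ)) := by
    rw [le_div_iff₀ (by positivity)]
    have h5 : E (fun g : Fin (r + 1) → Fin ζ → Fin b => ind (∀ i, ¬ HH M g i)) *
        (((r : ℝ) + 1) * q ^ (2 * ζ)) * ((r : ℝ) + 1) ≤ (1 + ζ * M) ^ 2 * ((r : ℝ) + 1) := by
      calc _ = E (fun g : Fin (r + 1) → Fin ζ → Fin b => ind (∀ i, ¬ HH M g i)) *
            (((r : ℝ) + 1) * q ^ ζ) ^ 2 := by ring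
        _ ≤ _ := h2
        _ = _ := by ring
    exact le_of_mul_le_mul_right h5 h3
  linarith

/-- extension by zero -/
def ext0 (r d : ℕ) : (Fin r → ℝ) →ₗ[ℝ] (Fin (r + d) → ℝ) where
  toFun x := Fin.append x 0
  map_add' x y := by
    funext i
    refine Fin.addCases (fun j => ?_) (fun j => ?_) i
    · simp
    · simp
  map_smul' a x := by
    funext i
    refine Fin.addCases (fun j => ?_) (fun j => ?_) i
    · simp
    · simp

theorem ext0_inj (r d : ℕ) : Function.Injective (ext0 r d) := by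
  intro x y h
  funext j
  have h1 := congrFun h (Fin.castAdd d j)
  change Fin.append x 0 (Fin.castAdd d j) = Fin.append y 0 (Fin.castAdd d j) at h1
  rwa [Fin.append_left, Fin.append_left] at h1

theorem normSq_ext0 (r d : ℕ) (x : Fin r → ℝ) : normSq (ext0 r d x) = ∑ c, x c ^ 2 := by
  unfold normSq
  change ∑ i, (Fin.append x (0 : Fin d → ℝ)) i ^ 2 = _
  rw [Fin.sum_univ_add]
  simp

theorem normSq_stack {r d b ζ : ℕ} (hζ : 1 ≤ ζ) (F : Fin r → Fin ζ → Bool × Fin b)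
    (W : Fin d → Fin ζ → Bool × Fin b) (x : Fin r → ℝ) :
    normSq ((sparseStack (Fin.append F W : Outcome (r + d) b ζ))ᵀ.mulVec (ext0 r d x)) =
      QQ F x / ζ := by
  have hζ' : (0 : ℝ) < ζ := by
    have : 0 < ζ := hζ
    exact_mod_cast this
  have h1 : ∀ z : Fin ζ × Fin b,
      ((sparseStack (Fin.append F W : Outcome (r + d) b ζ))ᵀ.mulVec (ext0 r d x)) z =
      vec F x z.1 z.2 / Real.sqrt ζ := by
    intro z
    unfold Matrix.mulVec dotProduct vec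
    change ∑ i, sparseStack (Fin.append F W : Outcome (r + d) b ζ) i z *
      (Fin.append x (0 : Fin d → ℝ)) i = _
    rw [Fin.sum_univ_add]
    simp only [Fin.append_left, Fin.append_right, Pi.zero_apply, mul_zero, Finset.sum_const_zero,
      add_zero]
    rw [Finset.sum_div]
    refine Finset.sum_congr rfl fun c _ => ?_
    unfold sparseStack sg
    simp only [Fin.append_left]
    split_ifs <;> ring
  unfold normSq QQ
  rw [Fintype.sum_prod_type, Finset.sum_div]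
  refine Finset.sum_congr rfl fun t _ => ?_
  rw [Finset.sum_div]
  refine Finset.sum_congr rfl fun p _ => ?_
  rw [h1 (t, p), div_pow, Real.sq_sqrt hζ'.le]

theorem prob_eq {n b ζ : ℕ} (A : Set (Outcome n b ζ)) : prob A = E (fun ω => ind (ω ∈ A)) := by
  classical
  unfold prob E
  rw [Nat.card_eq_fintype_card, Nat.card_eq_fintype_card]
  congr 1
  have h1 : ∀ ω, ind (ω ∈ A) = if ω ∈ A then (1 : ℝ) else 0 := by
    intro ω
    by_cases h : ω ∈ A
    · rw [ind_true h, if_pos h]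
    · rw [ind_false h, if_neg h]
  rw [Finset.sum_congr rfl (fun ω _ => h1 ω), ← Finset.sum_filter, Finset.sum_const,
    nsmul_eq_mul, mul_one]
  congr 1
  rw [Fintype.card_subtype]

theorem osi_le {r d b ζ : ℕ} (M : ℕ) (hM : 1 ≤ M) (hζ : 1 ≤ ζ) (hb : 1 ≤ b) (α δ : ℝ)
    (hα : 0 < α) (q : ℝ) (hq : 0 < q) (h : ∀ x : Fin b, q ≤ PP r b M x)
    (hosi : IsOSI ((r + 1) + d) b ζ (r + 1) α δ) :
    1 - δ ≤ (ζ : ℝ) / (M * α) + (1 + ζ * M) ^ 2 / (((r : ℝ) + 1) * q ^ (2 * ζ)) := by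
  have : Nonempty (Fin b) := ⟨⟨0, hb⟩⟩
  have hrank : Module.finrank ℝ (LinearMap.range (ext0 (r + 1) d)) = r + 1 := by
    rw [LinearMap.finrank_range_of_inj (ext0_inj (r + 1) d)]
    simp
  have h1 := hosi _ hrank
  refine h1.trans ?_
  refine le_trans ?_ (main_ineq M hM hζ hb α hα q hq h)
  rw [prob_eq, E_append (m := r + 1) (s := d)]
  refine E_mono fun F => E_le_of_nonneg (ind_nonneg _) fun W => ind_mono ?_
  intro hω x
  have h2 := hω (ext0 (r + 1) d x) ⟨x, rfl⟩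
  rw [normSq_ext0, normSq_stack hζ] at h2
  exact h2

/-- lower bound for the probability that a bin contains `M` items -/
theorem PP_ge (r b M : ℕ) (C' : ℝ) (hC' : 1 ≤ C') (hM : 1 ≤ M) (hb : 1 ≤ b)
    (hbr : (b : ℝ) ≤ C' * (r + 1)) (hr : 2 * M ≤ r + 1) (x : Fin b) :
    (1 / (4 * M * C')) ^ M ≤ PP r b M x := by
  have hM' : (1 : ℝ) ≤ M := by exact_mod_cast hM
  set d : ℕ := r / M with hd
  have h1 : M * d ≤ r := Nat.mul_div_le r M
  have h2 : ((r : ℝ) + 1) / (2 * M) ≤ d := by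
    have h3 : r < M * (d + 1) := by
      have := Nat.lt_mul_div_succ r (show 0 < M by omega)
      rwa [← hd] at this
    have h4 : (r : ℝ) + 1 ≤ M * (d + 1) := by exact_mod_cast h3
    have h5 : (2 : ℝ) * M ≤ r + 1 := by exact_mod_cast hr
    rw [div_le_iff₀ (by positivity)]
    nlinarith
  have h3 := one_sub_pow_ge d b hb (1 / (2 * M * C')) (by positivity)
    (by rw [div_le_one (by positivity)]; nlinarith)
    (by
      refine le_trans ?_ h2
      rw [div_mul_eq_mul_div, one_mul, div_le_div_iff₀ (by positivity) (by positivity)]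
      have h6 : (b : ℝ) * (2 * M) ≤ (C' * (r + 1)) * (2 * M) :=
        mul_le_mul_of_nonneg_right hbr (by positivity)
      linarith)
  rw [← PP_one d b x] at h3
  have h4 : (1 / (4 * M * C')) = 1 / (2 * M * C') / 2 := by
    field_simp
    norm_num
  rw [h4]
  have h5 : (1 / (2 * M * C') / 2) ^ M ≤ PP d b 1 x ^ M :=
    pow_le_pow_left₀ (by positivity) h3 M
  refine h5.trans ((PP_pow d b x M).trans ?_)
  have h6 := PP_mono (M * d) (r - M * d) b M x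
  rwa [Nat.add_sub_cancel' h1] at h6

theorem fail {r d b ζ K : ℕ} (hK : 1 ≤ K) (hζ : 1 ≤ ζ) (hb : 1 ≤ b) (α δ C' η : ℝ)
    (hα : 0 < α) (hη0 : 0 < η) (hη1 : 3 * η ≤ 1 - δ) (hη2 : η ≤ 1) (hKα : 1 / (K * α) ≤ η)
    (hC' : 1 ≤ C') (hbr : (b : ℝ) ≤ C' * (r + 1))
    (hmain : (1 + K * (ζ : ℝ) ^ 2) ^ 2 * (4 * K * ζ * C') ^ (2 * K * ζ ^ 2) ≤ η * (r + 1)) :
    ¬ IsOSI ((r + 1) + d) b ζ (r + 1) α δ := by
  intro hosi
  have hK' : (1 : ℝ) ≤ K := by exact_mod_cast hK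
  have hζ' : (1 : ℝ) ≤ ζ := by exact_mod_cast hζ
  have hM : 1 ≤ K * ζ := Nat.mul_pos hK hζ
  have hKζ : (1 : ℝ) ≤ K * ζ := by exact_mod_cast hM
  have hbase : 1 ≤ 4 * K * ζ * C' := by nlinarith
  have hr1 : (0 : ℝ) < (r : ℝ) + 1 := by positivity
  -- `r` is large
  have hr : 2 * (K * ζ) ≤ r + 1 := by
    have h1 : 4 * K * ζ * C' ≤ (4 * K * ζ * C') ^ (2 * K * ζ ^ 2) := by
      refine le_self_pow₀ hbase ?_
      have : 0 < 2 * K * ζ ^ 2 := by positivity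
      omega
    have h2 : (1 : ℝ) ≤ (1 + K * (ζ : ℝ) ^ 2) ^ 2 := by
      apply one_le_pow₀
      have : (0 : ℝ) ≤ K * (ζ : ℝ) ^ 2 := by positivity
      linarith
    have h3 : 1 * (4 * K * ζ * C') ≤
        (1 + K * (ζ : ℝ) ^ 2) ^ 2 * (4 * K * ζ * C') ^ (2 * K * ζ ^ 2) :=
      mul_le_mul h2 h1 (by linarith) (by positivity)
    have h4 : η * ((r : ℝ) + 1) ≤ 1 * ((r : ℝ) + 1) := mul_le_mul_of_nonneg_right hη2 hr1.le
    have h5 : 4 * ((K : ℝ) * ζ) ≤ 4 * K * ζ * C' := by nlinarith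
    have h6 : 2 * ((K : ℝ) * ζ) ≤ (r : ℝ) + 1 := by linarith
    exact_mod_cast h6
  have hM' : (1 : ℝ) ≤ ((K * ζ : ℕ) : ℝ) := by exact_mod_cast hM
  have h1 := osi_le (K * ζ) hM hζ hb α δ hα ((1 / (4 * ((K * ζ : ℕ) : ℝ) * C')) ^ (K * ζ))
    (by positivity) (fun x => PP_ge r b (K * ζ) C' hC' hM hb hbr hr x) hosi
  have h2 : (ζ : ℝ) / (((K * ζ : ℕ) : ℝ) * α) ≤ η := by
    refine le_trans (le_of_eq ?_) hKα
    push_cast
    field_simp
  have h3 : (1 + (ζ : ℝ) * ((K * ζ : ℕ) : ℝ)) ^ 2 / (((r : ℝ) + 1) *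
      ((1 / (4 * ((K * ζ : ℕ) : ℝ) * C')) ^ (K * ζ)) ^ (2 * ζ)) ≤ η := by
    have h4 : ((1 / (4 * ((K * ζ : ℕ) : ℝ) * C')) ^ (K * ζ)) ^ (2 * ζ) =
        1 / (4 * K * ζ * C') ^ (2 * K * ζ ^ 2) := by
      rw [← pow_mul, _root_.one_div_pow]
      congr 2
      · push_cast; ring
      · ring
    rw [h4, div_le_iff₀ (by positivity)]
    have h5 : η * (((r : ℝ) + 1) * (1 / (4 * K * ζ * C') ^ (2 * K * ζ ^ 2))) =
        η * ((r : ℝ) + 1) / (4 * K * ζ * C') ^ (2 * K * ζ ^ 2) := by ring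
    rw [h5, le_div_iff₀ (by positivity)]
    refine le_trans (le_of_eq ?_) hmain
    push_cast
    ring
  linarith

/-- the final estimate -/
theorem asymp (K : ℕ) (hK : 1 ≤ K) (C' η : ℝ) (hC' : 1 ≤ C') (hη : 0 < η) :
    ∃ c : ℝ, 0 < c ∧ ∃ r₀ : ℕ, 1 ≤ r₀ ∧ ∀ r ζ : ℕ, r₀ ≤ r → 1 ≤ ζ →
      (ζ : ℝ) < c * Real.sqrt (Real.log r / Real.log (Real.log r)) →
      (1 + K * (ζ : ℝ) ^ 2) ^ 2 * (4 * K * ζ * C') ^ (2 * K * ζ ^ 2) ≤ η * r := by
  have hK' : (1 : ℝ) ≤ K := by exact_mod_cast hK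
  set A : ℝ := Real.log (4 * K * C') with hA
  have hA0 : 0 ≤ A := Real.log_nonneg (by nlinarith)
  set c : ℝ := 1 / (2 * K * (A + 2)) with hc
  have hcpos : 0 < c := by positivity
  have hc1 : c ≤ 1 := by
    rw [hc, div_le_one (by positivity)]
    nlinarith
  refine ⟨c, hcpos, max ⌈Real.exp (Real.exp 1)⌉₊ ⌈(1 / η) ^ 2⌉₊ + 1, by omega, ?_⟩
  intro r ζ hr hζ hζc
  have hζ' : (1 : ℝ) ≤ ζ := by exact_mod_cast hζ
  have hr1 : Real.exp (Real.exp 1) ≤ r := by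
    have h1 : ⌈Real.exp (Real.exp 1)⌉₊ ≤ r := by
      have := le_max_left ⌈Real.exp (Real.exp 1)⌉₊ ⌈(1 / η) ^ 2⌉₊
      omega
    exact (Nat.le_ceil _).trans (by exact_mod_cast h1)
  have hr2 : (1 / η) ^ 2 ≤ r := by
    have h1 : ⌈(1 / η) ^ 2⌉₊ ≤ r := by
      have := le_max_right ⌈Real.exp (Real.exp 1)⌉₊ ⌈(1 / η) ^ 2⌉₊
      omega
    exact (Nat.le_ceil _).trans (by exact_mod_cast h1)
  have hrpos : (0 : ℝ) < r := lt_of_lt_of_le (Real.exp_pos _) hr1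
  set L : ℝ := Real.log r with hL
  have hL1 : Real.exp 1 ≤ L := by
    rw [hL, ← Real.log_exp (Real.exp 1)]
    exact Real.log_le_log (Real.exp_pos _) hr1
  have hLpos : 0 < L := lt_of_lt_of_le (Real.exp_pos _) hL1
  set l : ℝ := Real.log L with hl
  have hl1 : 1 ≤ l := by
    rw [hl]
    calc (1 : ℝ) = Real.log (Real.exp 1) := (Real.log_exp 1).symm
      _ ≤ Real.log L := Real.log_le_log (Real.exp_pos _) hL1
  have hlpos : 0 < l := by linarith
  -- `ζ ^ 2 ≤ c ^ 2 * L / l`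
  have hz2 : (ζ : ℝ) ^ 2 ≤ c ^ 2 * (L / l) := by
    have h1 : (ζ : ℝ) ^ 2 ≤ (c * Real.sqrt (L / l)) ^ 2 :=
      pow_le_pow_left₀ (by linarith) hζc.le 2
    rwa [mul_pow, Real.sq_sqrt (by positivity)] at h1
  have hLl : L / l ≤ L := div_le_self hLpos.le hl1
  have hz3 : (ζ : ℝ) ^ 2 ≤ L := by
    have : c ^ 2 ≤ 1 := pow_le_one₀ hcpos.le hc1
    have h0 : 0 ≤ L / l := by positivity
    nlinarith
  have hlogz : Real.log ζ ≤ l / 2 := by
    have h1 : Real.log ((ζ : ℝ) ^ 2) ≤ Real.log L := Real.log_le_log (by positivity) hz3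
    rw [Real.log_pow] at h1
    push_cast at h1
    linarith
  -- take logarithms
  have hbasepos : 0 < 4 * K * ζ * C' := by positivity
  have hlhs : Real.log ((1 + K * (ζ : ℝ) ^ 2) ^ 2 * (4 * K * ζ * C') ^ (2 * K * ζ ^ 2)) ≤
      L / 2 := by
    rw [Real.log_mul (by positivity) (by positivity), Real.log_pow, Real.log_pow]
    have h1 : Real.log (1 + K * (ζ : ℝ) ^ 2) ≤ K * (ζ : ℝ) ^ 2 := by
      have := Real.log_le_sub_one_of_pos (show 0 < 1 + K * (ζ : ℝ) ^ 2 by positivity)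
      linarith
    have h2 : Real.log (4 * K * ζ * C') = A + Real.log ζ := by
      rw [hA, ← Real.log_mul (by positivity) (by positivity)]
      congr 1
      ring
    rw [h2]
    push_cast
    have h3 : 2 * Real.log (1 + K * (ζ : ℝ) ^ 2) + 2 * K * (ζ : ℝ) ^ 2 * (A + Real.log ζ) ≤
        2 * K * (ζ : ℝ) ^ 2 * (1 + A + l / 2) := by
      have h4 : 0 ≤ 2 * K * (ζ : ℝ) ^ 2 := by positivity
      have h5 := mul_le_mul_of_nonneg_left hlogz h4
      nlinarith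
    refine h3.trans ?_
    have h6 : 2 * K * (ζ : ℝ) ^ 2 * (1 + A + l / 2) ≤
        2 * K * (c ^ 2 * (L / l)) * (1 + A + l / 2) := by
      apply mul_le_mul_of_nonneg_right _ (by positivity)
      exact mul_le_mul_of_nonneg_left hz2 (by positivity)
    refine h6.trans ?_
    have h7 : (L / l) * (1 + A + l / 2) ≤ L * (A + 2) := by
      rw [div_mul_eq_mul_div, div_le_iff₀ hlpos]
      have h8 : 1 + A + l / 2 ≤ (A + 2) * l := by nlinarith
      calc L * (1 + A + l / 2) ≤ L * ((A + 2) * l) := mul_le_mul_of_nonneg_left h8 hLpos.le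
        _ = L * (A + 2) * l := by ring
    have h9 : 2 * K * (c ^ 2 * (L / l)) * (1 + A + l / 2) =
        2 * K * c ^ 2 * ((L / l) * (1 + A + l / 2)) := by ring
    rw [h9]
    have h10 : 2 * K * c ^ 2 * ((L / l) * (1 + A + l / 2)) ≤ 2 * K * c ^ 2 * (L * (A + 2)) :=
      mul_le_mul_of_nonneg_left h7 (by positivity)
    refine h10.trans ?_
    have h11 : 2 * K * c ^ 2 * (L * (A + 2)) = c * L := by
      rw [hc]
      field_simp
    rw [h11]
    have h12 : c ≤ 1 / 2 := by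
      rw [hc, div_le_div_iff₀ (by positivity) (by norm_num)]
      nlinarith
    have h13 : c * L ≤ 1 / 2 * L := mul_le_mul_of_nonneg_right h12 hLpos.le
    linarith
  have h1 : (1 + K * (ζ : ℝ) ^ 2) ^ 2 * (4 * K * ζ * C') ^ (2 * K * ζ ^ 2) ≤
      Real.exp (L / 2) := by
    rw [← Real.log_le_iff_le_exp (by positivity)]
    exact hlhs
  refine h1.trans ?_
  have h2 : Real.exp (L / 2) = Real.sqrt r := by
    rw [Real.sqrt_eq_rpow, Real.rpow_def_of_pos hrpos, ← hL]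
    congr 1
    ring
  rw [h2]
  have h3 : 1 / η ≤ Real.sqrt r := Real.le_sqrt_of_sq_le hr2
  have h4 : 1 ≤ η * Real.sqrt r := by
    rw [div_le_iff₀ hη] at h3
    linarith
  calc Real.sqrt r = 1 * Real.sqrt r := (one_mul _).symm
    _ ≤ η * Real.sqrt r * Real.sqrt r := mul_le_mul_of_nonneg_right h4 (Real.sqrt_nonneg _)
    _ = η * r := by rw [mul_assoc, Real.mul_self_sqrt hrpos.le]

theorem main (C α δ : ℝ) (hα : 0 < α) (hδ : δ < 1) : ∃ c : ℝ, 0 < c ∧ ∃ r₀ : ℕ,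
    ∀ n r ζ b : ℕ, r₀ ≤ r → r ≤ n → 1 ≤ ζ → 1 ≤ b → ((b * ζ : ℕ) : ℝ) ≤ C * r →
      IsOSI n b ζ r α δ → c * Real.sqrt (Real.log r / Real.log (Real.log r)) ≤ ζ := by
  set C' : ℝ := max C 1 with hC'
  have hC'1 : 1 ≤ C' := le_max_right _ _
  set η : ℝ := min (1 - δ) 1 / 3 with hη
  have hη0 : 0 < η := by
    rw [hη]
    have : 0 < min (1 - δ) 1 := lt_min (by linarith) one_pos
    positivity
  have hη1 : 3 * η ≤ 1 - δ := by
    rw [hη]
    have := min_le_left (1 - δ) 1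
    linarith
  have hη2 : η ≤ 1 := by
    rw [hη]
    have := min_le_right (1 - δ) 1
    linarith
  obtain ⟨K, hK⟩ : ∃ K : ℕ, 1 / (η * α) + 1 ≤ K := exists_nat_ge _
  have hK1 : 1 ≤ K := by
    have h0 : 0 ≤ 1 / (η * α) := by positivity
    have : (1 : ℝ) ≤ K := by linarith
    exact_mod_cast this
  have hKα : 1 / (K * α) ≤ η := by
    have h0 : 1 / (η * α) ≤ K := by linarith
    rw [div_le_iff₀ (by positivity)] at h0
    have hKpos : (0 : ℝ) < K := by exact_mod_cast hK1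
    rw [div_le_iff₀ (by positivity)]
    linarith
  obtain ⟨c, hc, r₀, hr₀, h⟩ := asymp K hK1 C' η hC'1 hη0
  refine ⟨c, hc, r₀, ?_⟩
  intro n r ζ b hr hrn hζ hb hbζ hosi
  by_contra hcon
  push Not at hcon
  have h1 := h r ζ hr hζ hcon
  obtain ⟨r', rfl⟩ : ∃ r', r = r' + 1 := ⟨r - 1, by omega⟩
  obtain ⟨d, rfl⟩ : ∃ d, n = (r' + 1) + d := ⟨n - (r' + 1), by omega⟩
  have hbr : (b : ℝ) ≤ C' * ((r' : ℝ) + 1) := by
    have h2 : (b : ℝ) ≤ ((b * ζ : ℕ) : ℝ) := by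
      have : b ≤ b * ζ := Nat.le_mul_of_pos_right b hζ
      exact_mod_cast this
    have h3 : C * ((r' + 1 : ℕ) : ℝ) ≤ C' * ((r' : ℝ) + 1) := by
      push_cast
      exact mul_le_mul_of_nonneg_right (le_max_left _ _) (by positivity)
    linarith
  refine fail hK1 hζ hb α δ C' η hα hη0 hη1 hη2 hKα hC'1 hbr ?_ hosi
  push_cast at h1
  exact h1

end Pool.Agent.W840.OSI
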