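import Pool.Agent.W840.OSI.Resid

/-!
# Existence of a heavy item
-/

set_option autoImplicit false

namespace Pool.Agent.W840.OSI

open Finset Pool.Agent.H999R2.KSat

open Classical in
/-- number of entries of `G` equal to `x` -/
noncomputable def cnt {a b : ℕ} (G : Fin a → Fin b) (x : Fin b) : ℕ :=
  ∑ c, (if G c = x then 1 else 0)

/-- probability that at least `M` of `a` items are in the bin `x` -/
noncomputable def PP (a b M : ℕ) (x : Fin b) : ℝ :=
  E (fun G : Fin a → Fin b => ind (M ≤ cnt G x))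

theorem cnt_append {a d b : ℕ} (G : Fin a → Fin b) (W : Fin d → Fin b) (x : Fin b) :
    cnt (Fin.append G W) x = cnt G x + cnt W x := by
  unfold cnt
  rw [Fin.sum_univ_add]
  simp only [Fin.append_left, Fin.append_right]

theorem PP_nonneg (a b M : ℕ) (x : Fin b) : 0 ≤ PP a b M x := E_nonneg fun _ => ind_nonneg _

theorem PP_le_one (a b M : ℕ) (x : Fin b) : PP a b M x ≤ 1 :=
  E_le_of_nonneg zero_le_one fun _ => ind_le_one _

theorem PP_mono (a d b M : ℕ) (x : Fin b) : PP a b M x ≤ PP (a + d) b M x := by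
  have : Nonempty (Fin b) := ⟨x⟩
  unfold PP
  rw [E_append (m := a) (s := d) (fun G => ind (M ≤ cnt G x))]
  refine E_mono fun G => ?_
  refine le_E_const fun W => ind_mono ?_
  intro h
  rw [cnt_append]
  omega

theorem PP_succ (a d b M : ℕ) (x : Fin b) :
    PP a b M x * PP d b 1 x ≤ PP (a + d) b (M + 1) x := by
  unfold PP
  rw [E_append (m := a) (s := d) (fun G => ind (M + 1 ≤ cnt G x)), ← E_mul_right]
  refine E_mono fun G => ?_
  rw [← E_mul_left]
  refine E_mono fun W => ?_
  rw [← ind_and]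
  refine ind_mono ?_
  rintro ⟨h1, h2⟩
  rw [cnt_append]
  omega

theorem PP_pow (d b : ℕ) (x : Fin b) (M : ℕ) : PP d b 1 x ^ M ≤ PP (M * d) b M x := by
  have : Nonempty (Fin b) := ⟨x⟩
  induction M with
  | zero =>
    rw [pow_zero]
    unfold PP
    refine le_E_const fun G => ?_
    rw [ind_true (Nat.zero_le _)]
  | succ M ih =>
    rw [pow_succ, Nat.succ_mul]
    refine le_trans ?_ (PP_succ (M * d) d b M x)
    exact mul_le_mul_of_nonneg_right ih (PP_nonneg _ _ _ _)

theorem PP_one (d b : ℕ) (x : Fin b) : PP d b 1 x = 1 - (1 - 1 / (b : ℝ)) ^ d := by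
  have hne : Nonempty (Fin b) := ⟨x⟩
  unfold PP
  have h1 : ∀ G : Fin d → Fin b, ind (1 ≤ cnt G x) = 1 - ∏ c, ind (G c ≠ x) := by
    intro G
    rw [← ind_forall, ← ind_not]
    refine ind_congr ?_
    unfold cnt
    rw [Nat.one_le_iff_ne_zero, Ne, Finset.sum_eq_zero_iff]
    push Not
    simp
  rw [E_congr h1, E_sub, E_const, E_pi (fun (_ : Fin d) (y : Fin b) => ind (y ≠ x)),
    Finset.prod_const, Finset.card_univ, Fintype.card_fin]
  congr 2
  have h2 : ∀ y : Fin b, ind (y ≠ x) = 1 - ind (y = x) := fun y => ind_not _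
  rw [E_congr h2, E_sub, E_const]
  congr 1
  unfold E
  rw [Fintype.card_fin, Finset.sum_eq_single x]
  · rw [ind_true rfl]
  · intro y _ hy
    exact ind_false hy
  · intro h; exact absurd (mem_univ _) h

/-- elementary lower bound -/
theorem one_sub_pow_ge (d b : ℕ) (hb : 1 ≤ b) (θ : ℝ) (h0 : 0 ≤ θ) (h1 : θ ≤ 1)
    (h : θ * b ≤ d) : θ / 2 ≤ 1 - (1 - 1 / (b : ℝ)) ^ d := by
  have hb' : (1 : ℝ) ≤ b := by exact_mod_cast hb
  have h2 : (1 - 1 / (b : ℝ)) ^ d ≤ Real.exp (-θ) := by
    have h3 : 1 - 1 / (b : ℝ) ≤ Real.exp (-(1 / (b : ℝ))) := by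
      have := Real.add_one_le_exp (-(1 / (b : ℝ)))
      linarith
    have h4 : 0 ≤ 1 - 1 / (b : ℝ) := by
      rw [sub_nonneg, div_le_one (by linarith)]
      exact hb'
    calc (1 - 1 / (b : ℝ)) ^ d ≤ Real.exp (-(1 / (b : ℝ))) ^ d := pow_le_pow_left₀ h4 h3 d
      _ = Real.exp (-(d / (b : ℝ))) := by
          rw [← Real.exp_nat_mul]
          congr 1
          ring
      _ ≤ Real.exp (-θ) := by
          apply Real.exp_le_exp.2
          have : θ ≤ d / (b : ℝ) := by
            rw [le_div_iff₀ (by linarith)]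
            exact h
          linarith
  have h5 : Real.exp (-θ) ≤ 1 - θ / 2 := by
    have h6 : 1 + θ ≤ Real.exp θ := by
      have := Real.add_one_le_exp θ
      linarith
    rw [Real.exp_neg]
    have h7 : (Real.exp θ)⁻¹ ≤ (1 + θ)⁻¹ := inv_anti₀ (by linarith) h6
    refine h7.trans ?_
    rw [inv_le_iff_one_le_mul₀ (by linarith)]
    nlinarith
  linarith

/-- the number of other items in the bin of `i` in the block `t` -/
theorem card_NN {r b ζ : ℕ} (g : Fin (r + 1) → Fin ζ → Fin b) (i : Fin (r + 1)) (t : Fin ζ) :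
    (NN g i t).card = cnt (fun c : Fin r => g (i.succAbove c) t) (g i t) := by
  classical
  unfold NN cnt
  rw [Finset.card_filter, Fin.sum_univ_succAbove _ i]
  rw [if_neg (by simp), zero_add]
  refine Finset.sum_congr rfl fun c _ => ?_
  have : i.succAbove c ≠ i := Fin.succAbove_ne i c
  simp [this]

/-- the item `i` is heavy -/
def HH {r b ζ : ℕ} (M : ℕ) (g : Fin r → Fin ζ → Fin b) (i : Fin r) : Prop :=
  ∀ t, M ≤ (NN g i t).card

/-- exchange the two arguments -/
def swapE (r b ζ : ℕ) : (Fin r → Fin ζ → Fin b) ≃ (Fin ζ → Fin r → Fin b) where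
  toFun g := fun t c => g c t
  invFun h := fun c t => h t c
  left_inv _ := rfl
  right_inv _ := rfl

theorem E_HH {r b ζ : ℕ} (M : ℕ) (i : Fin (r + 1)) (q : ℝ) (hq : 0 ≤ q)
    (hb : 1 ≤ b) (h : ∀ x : Fin b, q ≤ PP r b M x) :
    q ^ ζ ≤ E (fun g : Fin (r + 1) → Fin ζ → Fin b => ind (HH M g i)) := by
  have hne : Nonempty (Fin b) := ⟨⟨0, hb⟩⟩
  have h1 : ∀ g : Fin (r + 1) → Fin ζ → Fin b, ind (HH M g i) =
      ∏ t, ind (M ≤ cnt (fun c : Fin r => (swapE (r + 1) b ζ g) t (i.succAbove c))
        ((swapE (r + 1) b ζ g) t i)) := by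
    intro g
    unfold HH
    rw [ind_forall]
    refine Finset.prod_congr rfl fun t _ => ?_
    rw [card_NN]
    rfl
  rw [E_congr h1, E_equiv (swapE (r + 1) b ζ) (fun h : Fin ζ → Fin (r + 1) → Fin b =>
    ∏ t, ind (M ≤ cnt (fun c : Fin r => h t (i.succAbove c)) (h t i)))]
  rw [E_pi (fun (_ : Fin ζ) (y : Fin (r + 1) → Fin b) =>
    ind (M ≤ cnt (fun c : Fin r => y (i.succAbove c)) (y i)))]
  rw [Finset.prod_const, Finset.card_univ, Fintype.card_fin]
  refine pow_le_pow_left₀ hq ?_ ζ
  rw [E_insertNth i]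
  refine le_E_const fun x => ?_
  refine (h x).trans (le_of_eq ?_)
  unfold PP
  refine E_congr fun G => ?_
  simp only [Fin.insertNth_apply_same, Fin.insertNth_apply_succAbove]

/-- heavy without the item `j` -/
def HH' {r b ζ : ℕ} (M : ℕ) (g : Fin r → Fin ζ → Fin b) (j i : Fin r) : Prop :=
  ∀ t, M ≤ ((NN g i t).erase j).card

theorem HH'_imp {r b ζ : ℕ} (M : ℕ) (g : Fin r → Fin ζ → Fin b) (j i : Fin r)
    (h : HH' M g j i) : HH M g i := fun t => (h t).trans (Finset.card_le_card (erase_subset _ _))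

theorem HH'_update {r b ζ : ℕ} (M : ℕ) (g : Fin r → Fin ζ → Fin b) (j i : Fin r) (hij : i ≠ j)
    (y : Fin ζ → Fin b) : HH' M (Function.update g j y) j i ↔ HH' M g j i := by
  unfold HH'
  refine forall_congr' fun t => ?_
  have : (NN (Function.update g j y) i t).erase j = (NN g i t).erase j := by
    ext c
    rw [mem_erase, mem_erase, mem_NN, mem_NN]
    constructor
    · rintro ⟨h1, h2, h3⟩
      rw [Function.update_of_ne h1, Function.update_of_ne hij] at h3
      exact ⟨h1, h2, h3⟩
    · rintro ⟨h1, h2, h3⟩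
      refine ⟨h1, h2, ?_⟩
      rw [Function.update_of_ne h1, Function.update_of_ne hij]
      exact h3
  rw [this]

/-- adding the item `j` makes at most `ζ M` further items heavy -/
theorem sum_diff {r b ζ : ℕ} (M : ℕ) (g : Fin r → Fin ζ → Fin b) (j : Fin r) :
    ∑ i ∈ univ.erase j, (ind (HH M g i) - ind (HH' M g j i)) ≤ (ζ : ℝ) * M := by
  classical
  have h1 : ∀ i ∈ univ.erase j, ind (HH M g i) - ind (HH' M g j i) ≤
      ∑ t, ind (g i t = g j t ∧ ((NN g i t).erase j).card < M) := by
    intro i hi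
    have hij : i ≠ j := Finset.ne_of_mem_erase hi
    by_cases h' : HH' M g j i
    · rw [ind_true h', ind_true (HH'_imp M g j i h')]
      have := Finset.sum_nonneg (s := univ) (fun t (_ : t ∈ univ) =>
        ind_nonneg (g i t = g j t ∧ ((NN g i t).erase j).card < M))
      linarith
    · rw [ind_false h', sub_zero]
      by_cases h : HH M g i
      · rw [ind_true h]
        unfold HH' at h'
        push Not at h'
        obtain ⟨t, ht⟩ := h'
        have h2 := h t
        have h3 : g i t = g j t := by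
          by_contra hne
          have : (NN g i t).erase j = NN g i t := by
            rw [erase_eq_self, mem_NN]
            rintro ⟨_, h4⟩
            exact hne h4.symm
          rw [this] at ht
          omega
        calc (1 : ℝ) = ind (g i t = g j t ∧ ((NN g i t).erase j).card < M) :=
              (ind_true ⟨h3, ht⟩).symm
          _ ≤ _ := Finset.single_le_sum (f := fun t => ind (g i t = g j t ∧
              ((NN g i t).erase j).card < M)) (fun t _ => ind_nonneg _) (mem_univ t)
      · rw [ind_false h]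
        exact Finset.sum_nonneg fun t _ => ind_nonneg _
  refine (Finset.sum_le_sum h1).trans ?_
  rw [Finset.sum_comm]
  have h2 : ∀ t, ∑ i ∈ univ.erase j, ind (g i t = g j t ∧ ((NN g i t).erase j).card < M) ≤
      (M : ℝ) := by
    intro t
    set S := (univ.erase j).filter (fun i => g i t = g j t) with hS
    have h3 : ∑ i ∈ univ.erase j, ind (g i t = g j t ∧ ((NN g i t).erase j).card < M) ≤
        ∑ i ∈ univ.erase j, (if g i t = g j t ∧ S.card ≤ M then (1 : ℝ) else 0) := by
      refine Finset.sum_le_sum fun i hi => ?_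
      have hij : i ≠ j := Finset.ne_of_mem_erase hi
      by_cases h : g i t = g j t ∧ ((NN g i t).erase j).card < M
      · rw [ind_true h]
        have h4 : S ⊆ insert i ((NN g i t).erase j) := by
          intro c hc
          rw [hS, mem_filter, mem_erase] at hc
          rw [mem_insert, mem_erase, mem_NN]
          by_cases hci : c = i
          · exact Or.inl hci
          · exact Or.inr ⟨hc.1.1, hci, hc.2.trans h.1.symm⟩
        have h5 := (Finset.card_le_card h4).trans (Finset.card_insert_le _ _)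
        rw [if_pos ⟨h.1, by omega⟩]
      · rw [ind_false h]
        split_ifs <;> norm_num
    refine h3.trans ?_
    by_cases hM : S.card ≤ M
    · have h6 : ∀ i ∈ univ.erase j, (if g i t = g j t ∧ S.card ≤ M then (1 : ℝ) else 0) =
          if g i t = g j t then 1 else 0 := by
        intro i _
        by_cases h : g i t = g j t <;> simp [h, hM]
      rw [Finset.sum_congr rfl h6, ← Finset.sum_filter, Finset.sum_const, nsmul_eq_mul, mul_one]
      exact_mod_cast hM
    · have h6 : ∀ i ∈ univ.erase j, (if g i t = g j t ∧ S.card ≤ M then (1 : ℝ) else 0) = 0 := by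
        intro i _
        rw [if_neg (fun h => hM h.2)]
      rw [Finset.sum_congr rfl h6, Finset.sum_const_zero]
      exact Nat.cast_nonneg M
  refine (Finset.sum_le_sum fun t _ => h2 t).trans (le_of_eq ?_)
  rw [Finset.sum_const, Finset.card_univ, Fintype.card_fin, nsmul_eq_mul]

theorem no_heavy {r b ζ : ℕ} (M : ℕ) (hb : 1 ≤ b) (q : ℝ) (hq : 0 ≤ q)
    (h : ∀ x : Fin b, q ≤ PP r b M x) :
    E (fun g : Fin (r + 1) → Fin ζ → Fin b => ind (∀ i, ¬ HH M g i)) *
      (((r : ℝ) + 1) * q ^ ζ) ^ 2 ≤ ((r : ℝ) + 1) * (1 + ζ * M) ^ 2 := by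
  have hne : Nonempty (Fin b) := ⟨⟨0, hb⟩⟩
  set N : (Fin (r + 1) → Fin ζ → Fin b) → ℝ := fun g => ∑ i, ind (HH M g i) with hN
  have h1 := efron_stein (X := Fin ζ → Fin b) (r + 1) N
    (fun j g => ∑ i ∈ univ.erase j, ind (HH' M g j i)) (by
      intro j g y
      refine Finset.sum_congr rfl fun i hi => ?_
      exact ind_congr (HH'_update M g j i (Finset.ne_of_mem_erase hi) y))
  have h2 : ∀ j, E (fun g => (N g - ∑ i ∈ univ.erase j, ind (HH' M g j i)) ^ 2) ≤
      (1 + (ζ : ℝ) * M) ^ 2 := by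
    intro j
    refine E_le_of_nonneg (sq_nonneg _) fun g => ?_
    have h3 : N g - ∑ i ∈ univ.erase j, ind (HH' M g j i) = ind (HH M g j) +
        ∑ i ∈ univ.erase j, (ind (HH M g i) - ind (HH' M g j i)) := by
      have h8 : N g = ind (HH M g j) + ∑ i ∈ univ.erase j, ind (HH M g i) := by
        simp only [hN]
        rw [Finset.add_sum_erase univ (fun i => ind (HH M g i)) (mem_univ j)]
      rw [h8, Finset.sum_sub_distrib]
      ring
    rw [h3]
    have h4 := sum_diff M g j
    have h5 : 0 ≤ ∑ i ∈ univ.erase j, (ind (HH M g i) - ind (HH' M g j i)) :=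
      Finset.sum_nonneg fun i _ => sub_nonneg.2 (ind_mono (HH'_imp M g j i))
    have h6 := ind_le_one (HH M g j)
    have h7 := ind_nonneg (HH M g j)
    exact pow_le_pow_left₀ (by linarith) (by linarith) 2
  have h3 : E (fun g => N g ^ 2) - (E N) ^ 2 ≤ ((r : ℝ) + 1) * (1 + ζ * M) ^ 2 := by
    refine h1.trans ((Finset.sum_le_sum fun j _ => h2 j).trans (le_of_eq ?_))
    rw [Finset.sum_const, Finset.card_univ, Fintype.card_fin, nsmul_eq_mul]
    push_cast
    ring
  rw [← E_sq_sub_mean] at h3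
  have h4 : ((r : ℝ) + 1) * q ^ ζ ≤ E N := by
    rw [hN, E_sum]
    have : ∀ i ∈ (univ : Finset (Fin (r + 1))), q ^ ζ ≤
        E (fun g : Fin (r + 1) → Fin ζ → Fin b => ind (HH M g i)) :=
      fun i _ => E_HH M i q hq hb h
    refine le_trans (le_of_eq ?_) (Finset.sum_le_sum this)
    rw [Finset.sum_const, Finset.card_univ, Fintype.card_fin, nsmul_eq_mul]
    push_cast
    ring
  have h5 : 0 ≤ ((r : ℝ) + 1) * q ^ ζ := by positivity
  refine le_trans ?_ h3
  rw [← E_mul_right]
  refine E_mono fun g => ?_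
  by_cases hg : ∀ i, ¬ HH M g i
  · rw [ind_true hg, one_mul]
    have h6 : N g = 0 := Finset.sum_eq_zero fun i _ => ind_false (hg i)
    rw [h6, zero_sub, neg_sq]
    exact pow_le_pow_left₀ h5 h4 2
  · rw [ind_false hg, zero_mul]
    exact sq_nonneg _

end Pool.Agent.W840.OSI
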