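import Pool.Agent.W840.OSI.Defs

/-!
# The test vector
-/

set_option autoImplicit false

namespace Pool.Agent.W840.OSI

open Finset Pool.Agent.H999R2.KSat

/-- flip the sign `(c0, t0)` -/
def flp {r ζ : ℕ} (c0 : Fin r) (t0 : Fin ζ) (σ : Fin r → Fin ζ → Bool) : Fin r → Fin ζ → Bool :=
  fun c t => if c = c0 ∧ t = t0 then ! σ c t else σ c t

theorem flp_flp {r ζ : ℕ} (c0 : Fin r) (t0 : Fin ζ) (σ : Fin r → Fin ζ → Bool) :
    flp c0 t0 (flp c0 t0 σ) = σ := by
  funext c t
  unfold flp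
  by_cases h : c = c0 ∧ t = t0 <;> simp [h]

def flpE {r ζ : ℕ} (c0 : Fin r) (t0 : Fin ζ) :
    (Fin r → Fin ζ → Bool) ≃ (Fin r → Fin ζ → Bool) where
  toFun := flp c0 t0
  invFun := flp c0 t0
  left_inv := flp_flp c0 t0
  right_inv := flp_flp c0 t0

theorem E_flip_zero {r ζ : ℕ} (c0 : Fin r) (t0 : Fin ζ) (h : (Fin r → Fin ζ → Bool) → ℝ)
    (hh : ∀ σ, h (flp c0 t0 σ) = - h σ) : E h = 0 := by
  have h1 := E_equiv (flpE c0 t0) h
  have h2 : E (fun σ => h (flpE c0 t0 σ)) = - E h := by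
    have : ∀ σ, h (flpE c0 t0 σ) = (-1) * h σ := by
      intro σ
      rw [neg_one_mul]
      exact hh σ
    rw [E_congr this, E_mul_left]
    ring
  linarith

theorem sg_flp_self {r ζ : ℕ} (c0 : Fin r) (t0 : Fin ζ) (σ : Fin r → Fin ζ → Bool) :
    sg (flp c0 t0 σ c0 t0) = - sg (σ c0 t0) := by
  unfold flp
  rw [if_pos ⟨rfl, rfl⟩, sg_not]

theorem sg_flp_of_ne_left {r ζ : ℕ} (c0 : Fin r) (t0 : Fin ζ) (σ : Fin r → Fin ζ → Bool)
    (c : Fin r) (t : Fin ζ) (h : c ≠ c0) : sg (flp c0 t0 σ c t) = sg (σ c t) := by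
  unfold flp
  rw [if_neg (fun h' => h h'.1)]

theorem sg_flp_of_ne_right {r ζ : ℕ} (c0 : Fin r) (t0 : Fin ζ) (σ : Fin r → Fin ζ → Bool)
    (c : Fin r) (t : Fin ζ) (h : t ≠ t0) : sg (flp c0 t0 σ c t) = sg (σ c t) := by
  unfold flp
  rw [if_neg (fun h' => h h'.2)]

/-- the characters -/
noncomputable def TT {r ζ : ℕ} (i : Fin r) (t : Fin ζ) (a : Fin ζ × Fin r)
    (σ : Fin r → Fin ζ → Bool) : ℝ := sg (σ i a.1) * sg (σ a.2 a.1) * sg (σ a.2 t)

theorem TT_sq {r ζ : ℕ} (i : Fin r) (t : Fin ζ) (a : Fin ζ × Fin r)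
    (σ : Fin r → Fin ζ → Bool) : TT i t a σ * TT i t a σ = 1 := by
  unfold TT
  have h1 := sg_sq (σ i a.1)
  have h2 := sg_sq (σ a.2 a.1)
  have h3 := sg_sq (σ a.2 t)
  calc _ = (sg (σ i a.1) * sg (σ i a.1)) * (sg (σ a.2 a.1) * sg (σ a.2 a.1)) *
        (sg (σ a.2 t) * sg (σ a.2 t)) := by ring
    _ = 1 := by rw [h1, h2, h3]; norm_num

theorem TT_orth {r ζ : ℕ} (i : Fin r) (t : Fin ζ) (a a' : Fin ζ × Fin r) (hne : a ≠ a')
    (ha : a.2 ≠ i) (ha' : a'.2 ≠ i) (hat : a.1 ≠ t) :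
    E (fun σ => TT i t a σ * TT i t a' σ) = 0 := by
  by_cases hc : a.2 = a'.2
  · -- flip at `(i, a.1)`
    have hj : a'.1 ≠ a.1 := by
      intro h
      exact hne (Prod.ext h.symm hc)
    apply E_flip_zero i a.1
    intro σ
    unfold TT
    rw [sg_flp_self, sg_flp_of_ne_left _ _ _ _ _ ha, sg_flp_of_ne_left _ _ _ _ _ ha,
      sg_flp_of_ne_right _ _ _ _ _ hj, sg_flp_of_ne_left _ _ _ _ _ ha',
      sg_flp_of_ne_left _ _ _ _ _ ha']
    ring
  · -- flip at `(a.2, t)`
    apply E_flip_zero a.2 t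
    intro σ
    unfold TT
    have hc' : a'.2 ≠ a.2 := fun h => hc h.symm
    rw [sg_flp_self, sg_flp_of_ne_left _ _ _ _ _ ha.symm, sg_flp_of_ne_right _ _ _ _ _ hat,
      sg_flp_of_ne_left _ _ _ _ _ ha.symm, sg_flp_of_ne_left _ _ _ _ _ hc',
      sg_flp_of_ne_left _ _ _ _ _ hc']
    ring

theorem E_sq_orth {r ζ : ℕ} (i : Fin r) (t : Fin ζ) (w : Fin ζ × Fin r → ℝ)
    (hw : ∀ a, w a ≠ 0 → a.2 ≠ i ∧ a.1 ≠ t) :
    E (fun σ => (∑ a, w a * TT i t a σ) ^ 2) = ∑ a, w a ^ 2 := by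
  have h1 : ∀ σ, (∑ a, w a * TT i t a σ) ^ 2 =
      ∑ a, ∑ a', w a * w a' * (TT i t a σ * TT i t a' σ) := by
    intro σ
    rw [sq, Finset.sum_mul_sum]
    refine Finset.sum_congr rfl fun a _ => Finset.sum_congr rfl fun a' _ => ?_
    ring
  rw [E_congr h1, E_sum]
  refine Finset.sum_congr rfl fun a _ => ?_
  rw [E_sum, Finset.sum_eq_single a]
  · have h2 : ∀ σ, w a * w a * (TT i t a σ * TT i t a σ) = w a ^ 2 := by
      intro σ
      rw [TT_sq]
      ring
    rw [E_congr h2, E_const]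
  · intro a' _ hne
    by_cases h : w a = 0
    · have : ∀ σ, w a * w a' * (TT i t a σ * TT i t a' σ) = 0 := by
        intro σ
        rw [h]
        ring
      rw [E_congr this, E_zero]
    · by_cases h' : w a' = 0
      · have : ∀ σ, w a * w a' * (TT i t a σ * TT i t a' σ) = 0 := by
          intro σ
          rw [h']
          ring
        rw [E_congr this, E_zero]
      · rw [E_mul_left, TT_orth i t a a' (Ne.symm hne) (hw a h).1 (hw a' h').1 (hw a h).2,
          mul_zero]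
  · intro h
    exact absurd (mem_univ _) h

open Classical in
/-- the items `c ≠ i` that share the bin of `i` in the block `t` -/
noncomputable def NN {r b ζ : ℕ} (g : Fin r → Fin ζ → Fin b) (i : Fin r) (t : Fin ζ) :
    Finset (Fin r) := univ.filter (fun c => c ≠ i ∧ g c t = g i t)

theorem mem_NN {r b ζ : ℕ} (g : Fin r → Fin ζ → Fin b) (i : Fin r) (t : Fin ζ) (c : Fin r) :
    c ∈ NN g i t ↔ c ≠ i ∧ g c t = g i t := by
  unfold NN
  simp

theorem sum_ind_mem {r : ℕ} (S : Finset (Fin r)) : ∑ c, ind (c ∈ S) = (S.card : ℝ) := by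
  classical
  have h : ∀ c, ind (c ∈ S) = if c ∈ S then (1 : ℝ) else 0 := by
    intro c
    by_cases hc : c ∈ S
    · rw [ind_true hc, if_pos hc]
    · rw [ind_false hc, if_neg hc]
  rw [Finset.sum_congr rfl (fun c _ => h c), Finset.sum_ite_mem, univ_inter, Finset.sum_const,
    nsmul_eq_mul, mul_one]

/-- the test vector -/
noncomputable def xx {r b ζ : ℕ} (g : Fin r → Fin ζ → Fin b) (i : Fin r)
    (σ : Fin r → Fin ζ → Bool) (c : Fin r) : ℝ :=
  ind (c = i) - ∑ j, ind (c ∈ NN g i j) / ((NN g i j).card : ℝ) * (sg (σ i j) * sg (σ c j))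

/-- the weights -/
noncomputable def ww {r b ζ : ℕ} (g : Fin r → Fin ζ → Fin b) (i : Fin r) (t : Fin ζ) (p : Fin b)
    (a : Fin ζ × Fin r) : ℝ :=
  ind (a.1 ≠ t) * (ind (a.2 ∈ NN g i a.1) / ((NN g i a.1).card : ℝ)) * ind (g a.2 t = p)

/-- outcome with given signs and positions -/
def mk {r b ζ : ℕ} (σ : Fin r → Fin ζ → Bool) (g : Fin r → Fin ζ → Fin b) :
    Fin r → Fin ζ → Bool × Fin b := fun c t => (σ c t, g c t)

theorem vec_xx {r b ζ : ℕ} (g : Fin r → Fin ζ → Fin b) (i : Fin r)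
    (σ : Fin r → Fin ζ → Bool) (t : Fin ζ) (p : Fin b) (hN : (NN g i t).card ≠ 0) :
    vec (mk σ g) (xx g i σ) t p = - ∑ a, ww g i t p a * TT i t a σ := by
  have hN' : ((NN g i t).card : ℝ) ≠ 0 := by exact_mod_cast hN
  -- the value of the sign factor
  have h0 : ∀ c, (if ((mk σ g) c t).2 = p then sg ((mk σ g) c t).1 else 0) =
      ind (g c t = p) * sg (σ c t) := by
    intro c
    unfold mk
    by_cases h : g c t = p
    · rw [if_pos h, ind_true h, one_mul]
    · rw [if_neg h, ind_false h, zero_mul]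
  unfold vec
  rw [Finset.sum_congr rfl (fun c _ => by rw [h0 c])]
  -- first part
  have h1 : ∑ c, ind (c = i) * (ind (g c t = p) * sg (σ c t)) = ind (g i t = p) * sg (σ i t) := by
    rw [Finset.sum_eq_single i]
    · rw [ind_true rfl, one_mul]
    · intro c _ hc
      rw [ind_false hc, zero_mul]
    · intro h; exact absurd (mem_univ _) h
  -- second part: the sum over the pairs
  have h2 : ∑ c, (∑ j, ind (c ∈ NN g i j) / ((NN g i j).card : ℝ) *
      (sg (σ i j) * sg (σ c j))) * (ind (g c t = p) * sg (σ c t)) =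
      ∑ j, ∑ c, ind (c ∈ NN g i j) / ((NN g i j).card : ℝ) * ind (g c t = p) *
        (sg (σ i j) * sg (σ c j) * sg (σ c t)) := by
    rw [Finset.sum_comm]
    refine Finset.sum_congr rfl fun c _ => ?_
    rw [Finset.sum_mul]
    refine Finset.sum_congr rfl fun j _ => ?_
    ring
  have h3 : ∑ c, ind (c ∈ NN g i t) / ((NN g i t).card : ℝ) * ind (g c t = p) *
        (sg (σ i t) * sg (σ c t) * sg (σ c t)) = ind (g i t = p) * sg (σ i t) := by
    have h4 : ∀ c, ind (c ∈ NN g i t) / ((NN g i t).card : ℝ) * ind (g c t = p) *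
        (sg (σ i t) * sg (σ c t) * sg (σ c t)) =
        (ind (g i t = p) * sg (σ i t) / ((NN g i t).card : ℝ)) * ind (c ∈ NN g i t) := by
      intro c
      by_cases hc : c ∈ NN g i t
      · have hg : g c t = g i t := ((mem_NN g i t c).1 hc).2
        rw [hg, ind_true hc]
        have := sg_sq (σ c t)
        calc _ = ind (g i t = p) * sg (σ i t) / ((NN g i t).card : ℝ) *
              (sg (σ c t) * sg (σ c t)) := by ring
          _ = _ := by rw [this]
      · rw [ind_false hc]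
        ring
    rw [Finset.sum_congr rfl (fun c _ => h4 c), ← Finset.mul_sum]
    rw [sum_ind_mem]
    field_simp
  have h6 : ∑ a, ww g i t p a * TT i t a σ =
      ∑ j, ind (j ≠ t) * ∑ c, ind (c ∈ NN g i j) / ((NN g i j).card : ℝ) * ind (g c t = p) *
        (sg (σ i j) * sg (σ c j) * sg (σ c t)) := by
    rw [Fintype.sum_prod_type]
    refine Finset.sum_congr rfl fun j _ => ?_
    rw [Finset.mul_sum]
    refine Finset.sum_congr rfl fun c _ => ?_
    unfold ww TT
    ring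
  have h7 : ∑ c, xx g i σ c * (ind (g c t = p) * sg (σ c t)) =
      ∑ c, ind (c = i) * (ind (g c t = p) * sg (σ c t)) -
      ∑ c, (∑ j, ind (c ∈ NN g i j) / ((NN g i j).card : ℝ) *
        (sg (σ i j) * sg (σ c j))) * (ind (g c t = p) * sg (σ c t)) := by
    rw [← Finset.sum_sub_distrib]
    refine Finset.sum_congr rfl fun c _ => ?_
    unfold xx
    ring
  rw [h7, h1, h2, h6]
  rw [← Finset.add_sum_erase univ _ (mem_univ t), h3]
  rw [← Finset.add_sum_erase univ (fun j => ind (j ≠ t) * ∑ c, ind (c ∈ NN g i j) /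
    ((NN g i j).card : ℝ) * ind (g c t = p) * (sg (σ i j) * sg (σ c j) * sg (σ c t))) (mem_univ t)]
  have h8 : ∀ j ∈ univ.erase t, ind (j ≠ t) * ∑ c, ind (c ∈ NN g i j) /
    ((NN g i j).card : ℝ) * ind (g c t = p) * (sg (σ i j) * sg (σ c j) * sg (σ c t)) =
    ∑ c, ind (c ∈ NN g i j) /
    ((NN g i j).card : ℝ) * ind (g c t = p) * (sg (σ i j) * sg (σ c j) * sg (σ c t)) := by
    intro j hj
    rw [ind_true (Finset.ne_of_mem_erase hj), one_mul]
  rw [Finset.sum_congr rfl h8]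
  have h9 : ind (t ≠ t) = 0 := ind_false (fun h => h rfl)
  rw [h9]
  ring

theorem E_QQ {r b ζ : ℕ} (g : Fin r → Fin ζ → Fin b) (i : Fin r) (M : ℕ) (hM : 1 ≤ M)
    (hN : ∀ t, M ≤ (NN g i t).card) :
    E (fun σ => QQ (mk σ g) (xx g i σ)) ≤ (ζ : ℝ) ^ 2 / M := by
  have hM' : (1 : ℝ) ≤ M := by exact_mod_cast hM
  have hpos : ∀ t, (0 : ℝ) < ((NN g i t).card : ℝ) := by
    intro t
    have : 0 < (NN g i t).card := lt_of_lt_of_le (by omega) (hN t)
    exact_mod_cast this
  have h1 : E (fun σ => QQ (mk σ g) (xx g i σ)) = ∑ t, ∑ p, ∑ a, ww g i t p a ^ 2 := by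
    unfold QQ
    rw [E_sum]
    refine Finset.sum_congr rfl fun t _ => ?_
    rw [E_sum]
    refine Finset.sum_congr rfl fun p _ => ?_
    have h2 : ∀ σ, vec (mk σ g) (xx g i σ) t p ^ 2 = (∑ a, ww g i t p a * TT i t a σ) ^ 2 := by
      intro σ
      rw [vec_xx g i σ t p (by have := hN t; omega), neg_sq]
    rw [E_congr h2, E_sq_orth]
    intro a ha
    unfold ww at ha
    constructor
    · intro h
      apply ha
      have : ¬ (a.2 ∈ NN g i a.1) := by
        rw [mem_NN]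
        exact fun h' => h'.1 h
      rw [ind_false this]
      ring
    · intro h
      apply ha
      rw [ind_false (P := a.1 ≠ t) (fun h' => h' h)]
      ring
  rw [h1]
  have h3 : ∀ t, ∑ p, ∑ a, ww g i t p a ^ 2 ≤ (ζ : ℝ) / M := by
    intro t
    rw [Finset.sum_comm, Fintype.sum_prod_type]
    have h4 : ∀ j, ∑ c, ∑ p, ww g i t p (j, c) ^ 2 ≤ 1 / (M : ℝ) := by
      intro j
      have h5 : ∀ c, ∑ p, ww g i t p (j, c) ^ 2 ≤
          (1 / ((NN g i j).card : ℝ) ^ 2) * ind (c ∈ NN g i j) := by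
        intro c
        have h6 : ∀ p, ww g i t p (j, c) ^ 2 = (ind (j ≠ t) *
            (ind (c ∈ NN g i j) / ((NN g i j).card : ℝ) ^ 2)) * ind (g c t = p) := by
          intro p
          unfold ww
          simp only
          have e1 := ind_sq (j ≠ t)
          have e2 := ind_sq (c ∈ NN g i j)
          have e3 := ind_sq (g c t = p)
          calc _ = (ind (j ≠ t) * ind (j ≠ t)) * ((ind (c ∈ NN g i j) * ind (c ∈ NN g i j)) /
                ((NN g i j).card : ℝ) ^ 2) * (ind (g c t = p) * ind (g c t = p)) := by ring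
            _ = _ := by rw [e1, e2, e3]
        rw [Finset.sum_congr rfl (fun p _ => h6 p), ← Finset.mul_sum]
        have h7 : ∑ p, ind (g c t = p) = 1 := by
          rw [Finset.sum_eq_single (g c t)]
          · exact ind_true rfl
          · intro p _ hp
            exact ind_false (fun h => hp h.symm)
          · intro h; exact absurd (mem_univ _) h
        rw [h7, mul_one]
        have h8 := ind_le_one (j ≠ t)
        have h9 : 0 ≤ ind (c ∈ NN g i j) / ((NN g i j).card : ℝ) ^ 2 :=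
          div_nonneg (ind_nonneg _) (by positivity)
        calc _ ≤ 1 * (ind (c ∈ NN g i j) / ((NN g i j).card : ℝ) ^ 2) :=
              mul_le_mul_of_nonneg_right h8 h9
          _ = _ := by ring
      refine (Finset.sum_le_sum fun c _ => h5 c).trans ?_
      rw [← Finset.mul_sum]
      rw [sum_ind_mem]
      have h11 := hpos j
      have h12 : (M : ℝ) ≤ ((NN g i j).card : ℝ) := by exact_mod_cast hN j
      have h13 : 1 / ((NN g i j).card : ℝ) ^ 2 * ((NN g i j).card : ℝ) =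
          1 / ((NN g i j).card : ℝ) := by
        field_simp
      rw [h13]
      exact one_div_le_one_div_of_le (by linarith) h12
    refine (Finset.sum_le_sum fun j _ => h4 j).trans (le_of_eq ?_)
    rw [Finset.sum_const, Finset.card_univ, Fintype.card_fin, nsmul_eq_mul]
    ring
  refine (Finset.sum_le_sum fun t _ => h3 t).trans (le_of_eq ?_)
  rw [Finset.sum_const, Finset.card_univ, Fintype.card_fin, nsmul_eq_mul]
  ring

theorem xx_self {r b ζ : ℕ} (g : Fin r → Fin ζ → Fin b) (i : Fin r)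
    (σ : Fin r → Fin ζ → Bool) : xx g i σ i = 1 := by
  unfold xx
  rw [ind_true rfl, Finset.sum_eq_zero, sub_zero]
  intro j _
  have : ¬ (i ∈ NN g i j) := by
    rw [mem_NN]
    exact fun h' => h'.1 rfl
  rw [ind_false this]
  ring

/-- if there is an item all of whose bins contain at least `M` other items, then the event
`α ‖x‖² ≤ ‖Ωᵀ x‖²` has small probability over the signs -/
theorem inj_le {r b ζ : ℕ} (hζ : 1 ≤ ζ) (α : ℝ) (hα : 0 < α) (g : Fin r → Fin ζ → Fin b)
    (i : Fin r) (M : ℕ) (hM : 1 ≤ M) (hN : ∀ t, M ≤ (NN g i t).card) :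
    E (fun σ => ind (∀ x : Fin r → ℝ, α * ∑ c, x c ^ 2 ≤ QQ (mk σ g) x / ζ)) ≤
      (ζ : ℝ) / (M * α) := by
  have hζ' : (1 : ℝ) ≤ ζ := by exact_mod_cast hζ
  have hM' : (1 : ℝ) ≤ M := by exact_mod_cast hM
  have h1 : ∀ σ, ind (∀ x : Fin r → ℝ, α * ∑ c, x c ^ 2 ≤ QQ (mk σ g) x / ζ) ≤
      (1 / (ζ * α)) * QQ (mk σ g) (xx g i σ) := by
    intro σ
    by_cases h : ∀ x : Fin r → ℝ, α * ∑ c, x c ^ 2 ≤ QQ (mk σ g) x / ζ
    · rw [ind_true h]
      have h2 := h (xx g i σ)
      have h3 : (1 : ℝ) ≤ ∑ c, xx g i σ c ^ 2 := by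
        have h4 := Finset.single_le_sum (f := fun c => xx g i σ c ^ 2)
          (fun c _ => sq_nonneg _) (mem_univ i)
        simp only [xx_self] at h4
        linarith
      have h5 : α * 1 ≤ α * ∑ c, xx g i σ c ^ 2 := mul_le_mul_of_nonneg_left h3 hα.le
      have h6 : α ≤ QQ (mk σ g) (xx g i σ) / ζ := by linarith
      rw [le_div_iff₀ (by linarith)] at h6
      rw [one_div, inv_mul_eq_div, le_div_iff₀ (by positivity)]
      linarith
    · rw [ind_false h]
      have : 0 ≤ QQ (mk σ g) (xx g i σ) :=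
        Finset.sum_nonneg fun t _ => Finset.sum_nonneg fun p _ => sq_nonneg _
      positivity
  refine (E_mono h1).trans ?_
  rw [E_mul_left]
  have h2 := E_QQ g i M hM hN
  calc 1 / (ζ * α) * E (fun σ => QQ (mk σ g) (xx g i σ)) ≤ 1 / (ζ * α) * ((ζ : ℝ) ^ 2 / M) :=
        mul_le_mul_of_nonneg_left h2 (by positivity)
    _ = (ζ : ℝ) / (M * α) := by field_simp

end Pool.Agent.W840.OSI
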